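import Pool.Agent.CmpDef.Final

/-!
# MP_00f8de_gt: a separable metrizable space `X` with `cmp X < Cmp X < def X`

We construct a separable metrizable space `X` with `cmp X = 1`, `Cmp X = 2` and `def X ≥ 3`.
The indices are shifted by one: `cmpSmallSucc X = cmp X + 1`, `cmpLargeSucc X = Cmp X + 1`,
`defSucc X = def X + 1`, all with values in `{0, 1, 2, …} ∪ {∞}`.
-/

open Set TopologicalSpace

namespace Pool.Agent.Results.MP_00f8de_gt.StrictChain

open Pool.Agent.CmpDef

theorem iInf_eq_of {P : ℕ → Prop} {n : ℕ} (hn : P n) (h : ∀ m < n, ¬ P m) :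
    (⨅ (m : ℕ) (_ : P m), (m : ℕ∞)) = n := by
  refine le_antisymm (iInf₂_le n hn) (le_iInf₂ fun m hm => ?_)
  by_contra hcon
  push Not at hcon
  exact h m (by exact_mod_cast hcon) hm

theorem lt_iInf_of {P : ℕ → Prop} {n : ℕ} (h : ∀ m ≤ n, ¬ P m) :
    (n : ℕ∞) < ⨅ (m : ℕ) (_ : P m), (m : ℕ∞) := by
  have : ((n + 1 : ℕ) : ℕ∞) ≤ ⨅ (m : ℕ) (_ : P m), (m : ℕ∞) := by
    refine le_iInf₂ fun m hm => ?_
    by_contra hcon
    push Not at hcon
    have : m < n + 1 := by exact_mod_cast hcon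
    exact h m (by omega) hm
  exact lt_of_lt_of_le (by exact_mod_cast Nat.lt_succ_self n) this

/-- There is a separable metrizable space `X` with `cmp X = 1`, `Cmp X = 2` and `def X > 2`; in
particular `cmp X < Cmp X < def X`. -/
theorem result : ∃ (X : Type) (_ : TopologicalSpace X), SeparableSpace X ∧ MetrizableSpace X ∧
    cmpSmallSucc X = 2 ∧ cmpLargeSucc X = 3 ∧ 3 < defSucc X := by
  obtain ⟨X, hX, h2, hs, hl, hnl, hnd⟩ := main
  have hnl1 : ¬ LargeLE 1 X := fun h => hnl (largeLE_two_of_one h)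
  have hnl0 : ¬ LargeLE 0 X := fun h => hnl1 (largeLE_of_compact h)
  refine ⟨X, inferInstance, inferInstance, inferInstance, ?_, ?_, ?_⟩
  · refine iInf_eq_of (P := fun n => SmallLE n X) (n := 2) hs ?_
    intro m hm
    have : m = 0 ∨ m = 1 := by omega
    rcases this with rfl | rfl
    · exact hnl0
    · exact hnl1
  · refine iInf_eq_of (P := fun n => LargeLE n X) (n := 3) hl ?_
    intro m hm
    have : m = 0 ∨ m = 1 ∨ m = 2 := by omega
    rcases this with rfl | rfl | rfl
    · exact hnl0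
    · exact hnl1
    · exact hnl
  · refine lt_iInf_of (P := fun n => DefLE n X) (n := 3) ?_
    rintro m hm ⟨Y, tY, e, hc, hmet, he, hd, hdim⟩
    exact hnd ⟨Y, tY, e, hc, hmet, he, hd, covDimLE_mono hm _ hdim⟩

end Pool.Agent.Results.MP_00f8de_gt.StrictChain
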